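import Pool.Agent.K7.H60.PL.Ru

set_option autoImplicit false

/-! # Long gaps between prime values of polynomials in almost all intervals of length `exp ((log x) ^ θ)`

Let `f` be an irreducible integer polynomial with positive leading coefficient (for instance `a X² + b X + c`
for an admissible triple).  For every fixed `0 < θ < 1` almost every interval `(x, x + exp ((log x) ^ θ)]`
contains a run of at least `c log x log log x` consecutive integers `k` at which `f k` is composite, indeed
divisible by a prime `≤ x ^ (1 / 10000)`.  The number of exceptional `x < X` is at most `X / (log X) ^ A`,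
for any fixed `A`.

Method: see Pool/Agent/K7/H60/PL and TL (hierarchical random assignment of the primes modulo which `f` has a
root to the arguments left by a greedy sieve by the primes up to `(log X) ^ (θ / 2)`; second moment localised
in short intervals, where primes dividing values of `f` at two places of the pair correlation are bounded by
resultants). -/

namespace Pool.Agent.Results.MP_a1177c_nt.CompositeRunsVeryShortIntervals

open Polynomial

open Classical in
/-- For an irreducible `f ∈ ℤ[X]` of positive degree with positive leading coefficient, and all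
`0 < θ < 1` and `A`, there are `c > 0` and `X₀` such that for every `X ≥ X₀` all but at most
`X / (log X) ^ A` of the integers `0 ≤ x < X` have the following property: the interval
`(x, x + exp ((log x) ^ θ)]` contains integers `n, m` with `m - n ≥ c log x log log x` such that for every
integer `k ∈ [n, m]` the value `f k` is larger than and divisible by a prime `p ≤ x ^ (1 / 10000)`
(hence composite). -/
theorem result (f : ℤ[X]) (hf : Irreducible f) (hd : 0 < f.natDegree)
    (hl : 0 < f.leadingCoeff) (θ : ℝ) (hθ : 0 < θ) (hθ1 : θ < 1) (A : ℕ) : ∃ c : ℝ, 0 < c ∧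
    ∃ X₀ : ℕ, ∀ X : ℕ, X₀ ≤ X →
    (((Finset.range X).filter (fun x : ℕ => ¬ ∃ n m : ℕ, x < n ∧
      (m : ℝ) ≤ x + Real.exp ((Real.log x) ^ θ) ∧
      c * Real.log x * Real.log (Real.log x) ≤ (m : ℝ) - n ∧
      ∀ k ∈ Finset.Icc n m, ∃ p : ℕ, p.Prime ∧ (p : ℝ) ≤ (x : ℝ) ^ (1 / 10000 : ℝ) ∧
        (p : ℤ) ∣ f.eval (k : ℤ) ∧ (p : ℤ) < f.eval (k : ℤ))).card : ℝ) ≤
      X / (Real.log X) ^ A :=
  Pool.Agent.K7.H60.PL.runs_very_short_f f hf hd hl θ hθ hθ1 A

end Pool.Agent.Results.MP_a1177c_nt.CompositeRunsVeryShortIntervals
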