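import Pool.Agent.K7.H51.PT.Fin

set_option autoImplicit false

/-!
# The primes `a m² + b m + c`: all but `X ^ (1 - θ + ε)` of the `c`, `|c| ≤ X`, outside a sparse set of moduli

Let `0 < θ < 1 / 10`, `ε > 0` and `C, T, U ≥ 0`. There are sets `𝓖(X)` of integers `1 ≤ g ≤ X ^ θ`, which depend on
`X, θ, ε, C, T` only, with `∑_{g ∈ 𝓖(X)} 1 / g ≤ (log X) ^ (-U)`, such that for all integers `a > 0` and `b` and all large
`X` the following holds for all but at most `X ^ (1 - θ + ε)` of the integers `c`, `|c| ≤ X`, for which the discriminant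
`D = b² - 4 a c` has at most `(log X) ^ T` divisors `≤ X ^ θ`, none of which is in `𝓖(X)`. With `f(m) = a m² + b m + c`, the
product which defines the constant of Hardy and Littlewood (Bateman and Horn) for `f` converges, to `S` say,
`S ≥ (log X) ^ (-3)` unless a prime divides all the values, and for all `y ≤ √X` the number of the `m ≤ y` for which `f(m)` is
prime differs by at most `√X / (log X) ^ C` from the number `S ∑_{m ≤ y, f(m) > 1} 1 / log f(m)` which they predict.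

For example, for every `δ > 9 / 10` this holds for `a m² + p` and for `a m² - p`, for all but at most `X ^ δ` of the primes
`p ≤ X`.

Proof (`K7/H51/PS`, `K7/H51/PT`): the circle method. The correlation of the primes with the values of the polynomial,
smoothed by slopes of length `X / (log X)^B`, is compared with a model whose transform is a multiple of the transform of the
primes near the fractions with denominators `≤ X ^ θ` and which is zero elsewhere; by Parseval and Weyl's inequality the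
difference has a mean square which saves `X ^ θ`. For one `c` the model is a sum over all the primitive characters of
conductor `f ≤ X ^ θ`, with coefficients `≪ (gcd(D, f) / f) ^ (1 / 2) f ^ ε`. So the modulus `g` is bad if the characters
whose conductor is a multiple of `g` contribute too much; a mean value theorem (Vaughan's identity, a maximal large sieve)
and Siegel–Walfisz show that there are few bad moduli.
-/

namespace Pool.Agent.Results.MP_a1177c_nt.PowerSavingModuli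

open Finset Filter Topology

/-- The polynomial. -/
def f (a b c : ℤ) (m : ℕ) : ℤ := a * (m : ℤ) ^ 2 + b * (m : ℤ) + c

/-- The number of the roots of `f` modulo `p`. -/
def omega (a b c : ℤ) (p : ℕ) : ℕ := ((range p).filter (fun m : ℕ => (p : ℤ) ∣ f a b c m)).card

/-- The product which defines the constant of `f`, over the primes `p ≤ z`. -/
noncomputable def product (a b c : ℤ) (z : ℕ) : ℝ :=
  ∏ p ∈ (Icc 1 z).filter Nat.Prime, (1 - (omega a b c p : ℝ) / p) / (1 - 1 / (p : ℝ))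

/-- The product over all the primes, in increasing order, converges to `S`. -/
def IsConstant (a b c : ℤ) (S : ℝ) : Prop := Tendsto (product a b c) atTop (𝓝 S)

/-- The number of the `m`, `1 ≤ m ≤ y`, for which `f(m)` is a prime. -/
def count (a b c : ℤ) (y : ℕ) : ℕ := ((Icc 1 y).filter (fun m : ℕ => (f a b c m).toNat.Prime)).card

/-- The sum of `1 / log f(m)` over the `m`, `1 ≤ m ≤ y`, with `f(m) > 1`. -/
noncomputable def logSum (a b c : ℤ) (y : ℕ) : ℝ :=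
  ∑ m ∈ (Icc 1 y).filter (fun m : ℕ => 1 < f a b c m), 1 / Real.log ((f a b c m : ℤ) : ℝ)

/-- The conclusion for one constant term `c`. -/
def Good (a b : ℤ) (C X : ℕ) (c : ℤ) : Prop :=
  ∃ S : ℝ, IsConstant a b c S ∧
    ((∀ p : ℕ, p.Prime → ∃ m : ℕ, ¬ (p : ℤ) ∣ f a b c m) → 1 / Real.log X ^ 3 ≤ S) ∧
    ∀ y : ℕ, y ^ 2 ≤ X → |(count a b c y : ℝ) - S * logSum a b c y| ≤ Real.sqrt X / Real.log X ^ C

/-- The number of the divisors `g`, `1 ≤ g ≤ X ^ θ`, of `D`. -/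
noncomputable def smallDivisors (D : ℤ) (θ : ℝ) (X : ℕ) : ℕ :=
  ((Icc 1 ⌊(X : ℝ) ^ θ⌋₊).filter (fun g : ℕ => (g : ℤ) ∣ D)).card

open Classical in
/-- The number of the integers `c`, `|c| ≤ X`, for which `D = b² - 4 a c` has at most `(log X) ^ T` divisors `≤ X ^ θ`, and no
divisor in `𝓖 X`, and for which the conclusion fails. -/
noncomputable def exceptions (a b : ℤ) (C T : ℕ) (θ : ℝ) (𝓖 : ℕ → Finset ℕ) (X : ℕ) : ℕ :=
  ((Icc (-(X : ℤ)) X).filter (fun c : ℤ => (smallDivisors (b ^ 2 - 4 * a * c) θ X : ℝ) ≤ Real.log X ^ T ∧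
    (∀ g ∈ 𝓖 X, ¬ (g : ℤ) ∣ b ^ 2 - 4 * a * c) ∧ ¬ Good a b C X c)).card

open Classical in
/-- The number of the primes `p ≤ X` for which the conclusion fails for `a m² + p` or for `a m² - p`. -/
noncomputable def primeExceptions (a : ℤ) (C X : ℕ) : ℕ :=
  ((Icc 1 X).filter (fun p : ℕ => p.Prime ∧ ¬ (Good a 0 C X p ∧ Good a 0 C X (-p)))).card

lemma good_iff (a b : ℤ) (C X : ℕ) (c : ℤ) : Good a b C X c ↔ Pool.Agent.K7.H51.PT.GoodS a b C X c := by
  have hf : ∀ (c : ℤ) (t : ℕ), Pool.Agent.R460.SB.fv (-a) (-b) c t = f a b c t := by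
    intro c t
    unfold Pool.Agent.R460.SB.fv f
    ring
  have hr : ∀ (c : ℤ) (p : ℕ), Pool.Agent.H373R2.T7.nuB (Pool.Agent.R460.SB.QS (-a) (-b) c) p = omega a b c p := by
    intro c p
    unfold omega Pool.Agent.H373R2.T7.nuB Pool.Agent.R460.SB.QS
    have e : ∀ m : ℕ, ((p : ℤ) ∣ c - (-a * (m : ℤ) ^ 2 + -b * (m : ℤ))) ↔ (p : ℤ) ∣ f a b c m := by
      intro m
      have e1 := hf c m
      unfold Pool.Agent.R460.SB.fv at e1
      rw [e1]
    congr 1
    ext m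
    simp only [mem_filter, e]
  have hs : ∀ c : ℤ, (fun z : ℕ => Pool.Agent.R460.SB.Sz (-a) (-b) c z) = product a b c := by
    intro c
    funext z
    rw [Pool.Agent.R460.SB.Sz_prod]
    unfold product Pool.Agent.H373R2.T7.pz
    refine prod_congr rfl fun p _ => ?_
    rw [hr]
  unfold Good Pool.Agent.K7.H51.PT.GoodS count IsConstant logSum
  simp only [hs, hf]

/-- the statement about all constant terms -/
lemma all {θ ε : ℝ} (hθ : 0 < θ) (hθ' : θ < 1 / 10) (hε : 0 < ε) (C T U : ℕ) :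
    ∃ 𝓖 : ℕ → Finset ℕ,
      (∃ X₀ : ℕ, ∀ X : ℕ, X₀ ≤ X →
        (∀ g ∈ 𝓖 X, 1 ≤ g ∧ (g : ℝ) ≤ (X : ℝ) ^ θ) ∧ ∑ g ∈ 𝓖 X, 1 / (g : ℝ) ≤ 1 / Real.log X ^ U) ∧
      ∀ a b : ℤ, 0 < a → ∃ X₀ : ℕ, ∀ X : ℕ, X₀ ≤ X →
        (exceptions a b C T θ 𝓖 X : ℝ) ≤ (X : ℝ) ^ (1 - θ + ε) := by
  classical
  obtain ⟨𝓖, h1, h2⟩ := Pool.Agent.K7.H51.PT.main_real hθ hθ' hε C T U
  refine ⟨𝓖, eventually_atTop.1 h1, fun a b ha => ?_⟩
  obtain ⟨X₀, h3⟩ := eventually_atTop.1 (h2 a b ha)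
  refine ⟨X₀, fun X hX => ?_⟩
  obtain ⟨Ex, -, hE, hgood⟩ := h3 X hX
  refine le_trans ?_ hE
  unfold exceptions
  have hsub : ((Icc (-(X : ℤ)) X).filter (fun c : ℤ => (smallDivisors (b ^ 2 - 4 * a * c) θ X : ℝ) ≤ Real.log X ^ T ∧
      (∀ g ∈ 𝓖 X, ¬ (g : ℤ) ∣ b ^ 2 - 4 * a * c) ∧ ¬ Good a b C X c)) ⊆ Ex := by
    intro c hc
    rw [mem_filter] at hc
    by_contra hcon
    apply hc.2.2.2
    rw [good_iff]
    exact hgood c hc.1 hcon hc.2.1 hc.2.2.1
  exact_mod_cast card_le_card hsub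

/-- a divisor of `4 a p` which is smaller than the prime `p` divides `4 a` -/
lemma dvd_four {a : ℤ} {p g : ℕ} (ha : 0 < a) (hp : p.Prime) (hg0 : 0 < g) (hg : g < p) {s : ℤ} (hs : s = 1 ∨ s = -1)
    (h : (g : ℤ) ∣ 0 ^ 2 - 4 * a * (s * p)) : g ≤ 4 * a.natAbs := by
  have h1 : (g : ℤ) ∣ (4 * a.natAbs * p : ℕ) := by
    have h5 : ((4 * a.natAbs * p : ℕ) : ℤ) = 4 * a * p := by
      push_cast
      rw [abs_of_pos ha]
    rw [h5]
    rcases hs with rfl | rfl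
    · have : 4 * a * (p : ℤ) = -(0 ^ 2 - 4 * a * (1 * p)) := by ring
      rw [this, dvd_neg]
      exact h
    · have : 4 * a * (p : ℤ) = 0 ^ 2 - 4 * a * (-1 * p) := by ring
      rw [this]
      exact h
  have h2 : g ∣ 4 * a.natAbs * p := by exact_mod_cast h1
  have h3 : Nat.Coprime g p := by
    rw [Nat.coprime_comm, Nat.Prime.coprime_iff_not_dvd hp]
    intro h4
    have := Nat.le_of_dvd hg0 h4
    omega
  exact Nat.le_of_dvd (by omega) (h3.dvd_of_dvd_mul_right h2)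

/-- the statement about the primes -/
lemma primes (C : ℕ) {a : ℤ} (ha : 0 < a) {δ : ℝ} (hδ : 9 / 10 < δ) :
    ∃ X₀ : ℕ, ∀ X : ℕ, X₀ ≤ X → (primeExceptions a C X : ℝ) ≤ (X : ℝ) ^ δ := by
  classical
  obtain ⟨η, hη⟩ : ∃ η : ℝ, η = min (δ - 9 / 10) (1 / 20) := ⟨_, rfl⟩
  have hη0 : 0 < η := by rw [hη]; exact lt_min (by linarith) (by norm_num)
  have hη1 : η ≤ δ - 9 / 10 := by rw [hη]; exact min_le_left _ _
  have hη2 : η ≤ 1 / 20 := by rw [hη]; exact min_le_right _ _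
  obtain ⟨θ, hθ⟩ : ∃ θ : ℝ, θ = 1 / 10 - η / 2 := ⟨_, rfl⟩
  have hθ0 : 0 < θ := by linarith
  have hθ1 : θ < 1 / 10 := by linarith
  obtain ⟨𝓖, h1, h2⟩ := Pool.Agent.K7.H51.PT.main_real hθ0 hθ1 (show 0 < η / 4 by positivity) C 1 1
  have hcast : Tendsto (fun n : ℕ => (n : ℝ)) atTop atTop := tendsto_natCast_atTop_atTop
  have hlog : Tendsto (fun n : ℕ => Real.log (n : ℝ)) atTop atTop := Real.tendsto_log_atTop.comp hcast
  obtain ⟨X₀, h3⟩ := eventually_atTop.1 ((h1.and (h2 a 0 ha)).and ((hlog.eventually_gt_atTop (4 * a.natAbs : ℝ)).and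
    ((((tendsto_rpow_atTop (show (0 : ℝ) < η / 4 by positivity)).comp hcast).eventually_ge_atTop 2).and
      (eventually_ge_atTop 1))))
  refine ⟨X₀, fun X hX => ?_⟩
  obtain ⟨⟨⟨hG, hGs⟩, Ex, hEx, hE, hgood⟩, hL, hX4, hX1⟩ := h3 X hX
  simp only [Function.comp] at hX4
  rw [pow_one] at hGs
  have hX1r : (1 : ℝ) ≤ X := by exact_mod_cast hX1
  have hX0r : (0 : ℝ) < X := by linarith
  have ha1 : (1 : ℝ) ≤ a.natAbs := by exact_mod_cast (by omega : 1 ≤ a.natAbs)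
  have hL0 : 0 < Real.log X := by linarith
  -- the conclusion for one prime
  have key : ∀ p : ℕ, p.Prime → p ≤ X → ⌊(X : ℝ) ^ θ⌋₊ < p → ∀ s : ℤ, (s = 1 ∨ s = -1) → s * p ∉ Ex → Good a 0 C X (s * p) := by
    intro p hp hpX hpθ s hs hpE
    rw [good_iff]
    apply hgood (s * p) _ hpE
    · have h4 : ((Pool.Agent.K7.H51.PT.sd (0 ^ 2 - 4 * a * (s * p)) θ X).card : ℕ) ≤ 4 * a.natAbs := by
        have h5 : Pool.Agent.K7.H51.PT.sd (0 ^ 2 - 4 * a * (s * p)) θ X ⊆ Icc 1 (4 * a.natAbs) := by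
          intro g hg
          unfold Pool.Agent.K7.H51.PT.sd at hg
          rw [mem_filter, mem_Icc] at hg
          rw [mem_Icc]
          exact ⟨hg.1.1, dvd_four ha hp hg.1.1 (by omega) hs hg.2⟩
        have h6 := card_le_card h5
        rwa [Nat.card_Icc, Nat.add_sub_cancel] at h6
      rw [pow_one]
      have h7 : (((Pool.Agent.K7.H51.PT.sd (0 ^ 2 - 4 * a * (s * p)) θ X).card : ℕ) : ℝ) ≤ 4 * a.natAbs := by exact_mod_cast h4
      linarith
    · intro g hg hgd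
      obtain ⟨hg1, hg2⟩ := hG g hg
      have hg3 : g ≤ ⌊(X : ℝ) ^ θ⌋₊ := Nat.le_floor hg2
      have h4 := dvd_four ha hp hg1 (by omega) hs hgd
      have h5 : 1 / (g : ℝ) ≤ 1 / Real.log X := by
        refine le_trans ?_ hGs
        exact single_le_sum (f := fun g : ℕ => 1 / (g : ℝ)) (fun i _ => by positivity) hg
      have hg0 : (0 : ℝ) < g := by exact_mod_cast hg1
      rw [div_le_div_iff₀ hg0 hL0] at h5
      have h6 : (g : ℝ) ≤ 4 * a.natAbs := by exact_mod_cast h4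
      linarith
    · rw [mem_Icc]
      rcases hs with rfl | rfl
      · constructor <;> omega
      · constructor <;> omega
  -- the number of the exceptional primes
  unfold primeExceptions
  obtain ⟨P, hP⟩ : ∃ P, P = (Icc 1 X).filter (fun p : ℕ => p.Prime ∧ ¬ (Good a 0 C X p ∧ Good a 0 C X (-p))) := ⟨_, rfl⟩
  have hsub : P ⊆ Icc 1 ⌊(X : ℝ) ^ θ⌋₊ ∪ Ex.image Int.natAbs := by
    intro p hp
    rw [hP, mem_filter, mem_Icc] at hp
    rw [mem_union, mem_Icc, mem_image]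
    by_contra hcon
    push Not at hcon
    obtain ⟨hc1, hc2⟩ := hcon
    have hpθ := hc1 hp.1.1
    apply hp.2.2
    constructor
    · have := key p hp.2.1 hp.1.2 hpθ 1 (Or.inl rfl) (fun h => hc2 _ h (by simp))
      rwa [one_mul] at this
    · have := key p hp.2.1 hp.1.2 hpθ (-1) (Or.inr rfl) (fun h => hc2 _ h (by simp))
      rwa [neg_one_mul] at this
  have hcard := card_le_card hsub
  have h4 : #P ≤ ⌊(X : ℝ) ^ θ⌋₊ + #Ex := by
    refine hcard.trans ((card_union_le _ _).trans ?_)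
    rw [Nat.card_Icc, Nat.add_sub_cancel]
    exact Nat.add_le_add_left card_image_le _
  have h5 : (#P : ℝ) ≤ (X : ℝ) ^ θ + (X : ℝ) ^ (1 - θ + η / 4) := by
    have h6 : (#P : ℝ) ≤ (⌊(X : ℝ) ^ θ⌋₊ : ℕ) + (#Ex : ℝ) := by exact_mod_cast h4
    have h7 : ((⌊(X : ℝ) ^ θ⌋₊ : ℕ) : ℝ) ≤ (X : ℝ) ^ θ := Nat.floor_le (by positivity)
    linarith
  rw [← hP]
  refine h5.trans ?_
  have h6 : (X : ℝ) ^ θ ≤ (X : ℝ) ^ (1 - θ + η / 4) := Real.rpow_le_rpow_of_exponent_le hX1r (by linarith)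
  calc (X : ℝ) ^ θ + (X : ℝ) ^ (1 - θ + η / 4) ≤ 2 * (X : ℝ) ^ (1 - θ + η / 4) := by linarith
    _ ≤ (X : ℝ) ^ (η / 4) * (X : ℝ) ^ (1 - θ + η / 4) := by gcongr
    _ = (X : ℝ) ^ (η / 4 + (1 - θ + η / 4)) := by rw [← Real.rpow_add hX0r]
    _ ≤ (X : ℝ) ^ δ := Real.rpow_le_rpow_of_exponent_le hX1r (by linarith)

theorem result (C : ℕ) :
    (∀ (θ ε : ℝ) (T U : ℕ), 0 < θ → θ < 1 / 10 → 0 < ε → ∃ 𝓖 : ℕ → Finset ℕ,
      (∃ X₀ : ℕ, ∀ X : ℕ, X₀ ≤ X →
        (∀ g ∈ 𝓖 X, 1 ≤ g ∧ (g : ℝ) ≤ (X : ℝ) ^ θ) ∧ ∑ g ∈ 𝓖 X, 1 / (g : ℝ) ≤ 1 / Real.log X ^ U) ∧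
      ∀ a b : ℤ, 0 < a → ∃ X₀ : ℕ, ∀ X : ℕ, X₀ ≤ X →
        (exceptions a b C T θ 𝓖 X : ℝ) ≤ (X : ℝ) ^ (1 - θ + ε)) ∧
    ∀ (a : ℤ) (δ : ℝ), 0 < a → 9 / 10 < δ → ∃ X₀ : ℕ, ∀ X : ℕ, X₀ ≤ X → (primeExceptions a C X : ℝ) ≤ (X : ℝ) ^ δ :=
  ⟨fun _ _ T U hθ hθ' hε => all hθ hθ' hε C T U, fun _ _ ha hδ => primes C ha hδ⟩

end Pool.Agent.Results.MP_a1177c_nt.PowerSavingModuli
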