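import Pool.Agent.K7.H60.SP.Simul

set_option autoImplicit false

/-! # Long gaps common to the prime values of finitely many polynomials

For every finite family of irreducible polynomials `f i` with positive leading coefficients (for instance
finitely many quadratic polynomials with fundamental or other nonsquare discriminants, together with the
polynomial `X` itself) every interval `(M, M + Y]` with `M ≥ Y ≥ Y₀` contains at least
`c log Y log log Y` consecutive integers at which ALL the `f i` are composite.

Method: the colours of the covering sieve of the starting files (`Pool.Agent.H256R2`, `H426R3.SQ`,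
`W154.PV.covering_hitD`) are the polynomials `f i (X + k)` themselves, which takes care of coincidences
between translates; the class modulo the small primes is chosen with a potential function for the whole
family, and primes dividing values of two different colours are bounded by resultants. -/

namespace Pool.Agent.Results.MP_a1177c_nt.SimultaneousCompositeRuns

open Polynomial

/-- For irreducible `f i ∈ ℤ[X]`, `i` in a finite set, of positive degree and with positive leading
coefficient there are `c > 0` and `Y₀` such that for all `Y ≥ Y₀` and all integers `M ≥ Y` some `x > M`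
with `x + c log Y log log Y ≤ M + Y` has the property that for `0 ≤ k ≤ c log Y log log Y` none of the
numbers `f i (x + k)` is prime. -/
theorem result {ι : Type} [Fintype ι] (f : ι → ℤ[X]) (hf : ∀ i, Irreducible (f i))
    (hd : ∀ i, 0 < (f i).natDegree) (hl : ∀ i, 0 < (f i).leadingCoeff) :
    ∃ c : ℝ, 0 < c ∧ ∃ Y₀ : ℝ, ∀ Y : ℝ, Y₀ ≤ Y → ∀ M : ℤ, Y ≤ M →
      ∃ x : ℤ, M < x ∧ (x : ℝ) + c * Real.log Y * Real.log (Real.log Y) ≤ M + Y ∧
        ∀ k : ℕ, (k : ℝ) ≤ c * Real.log Y * Real.log (Real.log Y) →
          ∀ i, ¬ Prime ((f i).eval (x + (k : ℤ))) := by
  classical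
  -- add the polynomial `X`, so that the family is not empty
  set f' : Option ι → ℤ[X] := fun o => o.elim X f with hf'
  obtain ⟨c, hc, Y₀, h⟩ := Pool.Agent.K7.H60.SP.simul f'
    (fun o => by
      cases o with
      | none => exact irreducible_X
      | some i => exact hf i)
    (fun o => by
      cases o with
      | none => simp [hf']
      | some i => exact hd i)
    (fun o => by
      cases o with
      | none => simp [hf']
      | some i => exact hl i)
  refine ⟨c, hc, Y₀, fun Y hY M hM => ?_⟩
  obtain ⟨x, h1, h2, h3⟩ := h Y hY M hM
  refine ⟨x, h1, h2, fun k hk i hprime => ?_⟩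
  obtain ⟨p, hp, -, h4, h5⟩ := h3 k hk (some i)
  have h6 : (f' (some i)) = f i := rfl
  rw [h6] at h4 h5
  have h7 : Associated (p : ℤ) ((f i).eval (x + (k : ℤ))) :=
    (Nat.prime_iff_prime_int.1 hp).associated_of_dvd hprime h4
  rcases Int.associated_iff.1 h7 with h8 | h8
  · omega
  · have h9 : (0 : ℤ) < p := by exact_mod_cast hp.pos
    omega

end Pool.Agent.Results.MP_a1177c_nt.SimultaneousCompositeRuns
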