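import Mathlib
import Pool.Agent.K7.H74.QA.Fin

set_option autoImplicit false

/-!
# The primes `a m² + b m + c` with `m` in an arbitrary well distributed set, for almost all `c`

Fix integers `a > 0` and `b` and an exponent `U`. There are `K` and `X₀` such that for every `X ≥ X₀` the following
holds.

(A) Let `w : ℕ → [-1, 1]` be ANY weights whose sums over `m ≤ y`, `m ≡ r (mod q)`, are at most `√X / (log X)^K` for all
`q ≤ (log X)^K`, all `r` and all `y ≤ √X`. Then for all but at most `X / (log X)^U` of the `c ≤ X`, the sums of `w m`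
over the `m ≤ y` for which `a m² + b m + c` is prime are at most `√X / (log X)^U`, for all `y ≤ √X`.

(B) Let `S` be ANY set of integers and `0 ≤ δ ≤ 1` such that `S` has the density `δ` in these progressions, up to
`√X / (log X)^K`. Then for all but at most `X / (log X)^U` of the `c ≤ X`: the product which defines the constant
`S(f)` of Hardy and Littlewood (Bateman and Horn) for `f(m) = a m² + b m + c` converges, and for all `y ≤ √X` the number
of the `m ∈ S`, `m ≤ y`, for which `f(m)` is prime is `δ S(f) ∑_{m ≤ y} 1 / log f(m)` up to `√X / (log X)^U`; and if no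
prime divides all the values of `f` and `δ ≥ (log X)^(-U)`, there are at least `δ √X / (log X)^5` of them up to `√X`.

The set `S` (the weights) may depend on `X` and its density may be as small as a power of `1 / log X`. It is necessary
that the exceptional `c` depend on `S`.

Proof: the circle method with arbitrary weights. On the minor arcs for the primes their exponential sum is small, and
the `2p`-th moment of the sum over `m` with arbitrary bounded weights is majorised by that of the sum without weights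
(`Pool.Agent.H373R2`); on the major arcs the sum with weights is small. The formula for all the `m` and the lower bound
are those of the starting files (`Pool.Agent.R460`).
-/

namespace Pool.Agent.Results.MP_a1177c_nt.WellDistributedArguments

open Finset Filter Topology

/-- The polynomial. -/
def f (a b c : ℤ) (m : ℕ) : ℤ := a * (m : ℤ) ^ 2 + b * (m : ℤ) + c

/-- The number of the roots of `f` modulo `p`. -/
def omega (a b c : ℤ) (p : ℕ) : ℕ := ((range p).filter (fun m : ℕ => (p : ℤ) ∣ f a b c m)).card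

/-- The product which defines the constant of `f`, over the primes `p ≤ z`. -/
noncomputable def product (a b c : ℤ) (z : ℕ) : ℝ :=
  ∏ p ∈ (Icc 1 z).filter Nat.Prime, (1 - (omega a b c p : ℝ) / p) / (1 - 1 / (p : ℝ))

/-- The product over all the primes, in increasing order, converges to `S`. -/
def IsConstant (a b c : ℤ) (S : ℝ) : Prop := Tendsto (product a b c) atTop (𝓝 S)

/-- The sum of the weights `w m` over the `1 ≤ m ≤ y` for which `f(m)` is prime. -/
noncomputable def primeSum (w : ℕ → ℝ) (a b c : ℤ) (y : ℕ) : ℝ :=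
  ∑ m ∈ (Icc 1 y).filter (fun m : ℕ => (f a b c m).toNat.Prime), w m

open Classical in
/-- The number of the `m ∈ S`, `1 ≤ m ≤ y`, for which `f(m)` is prime. -/
noncomputable def count (S : Set ℕ) (a b c : ℤ) (y : ℕ) : ℕ :=
  ((Icc 1 y).filter (fun m : ℕ => m ∈ S ∧ (f a b c m).toNat.Prime)).card

/-- The weights are negligible in the progressions with small moduli. -/
def Negligible (w : ℕ → ℝ) (K X : ℕ) : Prop :=
  ∀ q : ℕ, 1 ≤ q → (q : ℝ) ≤ Real.log X ^ K → ∀ r y : ℕ, y ^ 2 ≤ X →
    |∑ m ∈ (Icc 1 y).filter (fun m : ℕ => m ≡ r [MOD q]), w m| ≤ Real.sqrt X / Real.log X ^ K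

open Classical in
/-- The set `S` has the density `δ` in the progressions with small moduli. -/
def Density (S : Set ℕ) (δ : ℝ) (K X : ℕ) : Prop := Negligible (fun m => (if m ∈ S then 1 else 0) - δ) K X

/-- The conclusion for one constant term `c` and one set `S` with density `δ`. -/
def Good (a b : ℤ) (S : Set ℕ) (δ : ℝ) (U X : ℕ) (c : ℤ) : Prop :=
  (∃ C : ℝ, IsConstant a b c C ∧ ∀ y : ℕ, y ^ 2 ≤ X →
    |(count S a b c y : ℝ) - δ * C * ∑ m ∈ Icc 1 y, 1 / Real.log ((f a b c m : ℤ) : ℝ)| ≤
      Real.sqrt X / Real.log X ^ U) ∧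
  ((∀ p : ℕ, p.Prime → ∃ m : ℕ, ¬ (p : ℤ) ∣ f a b c m) → 1 / Real.log X ^ U ≤ δ →
    ∃ y : ℕ, y ^ 2 ≤ X ∧ δ * Real.sqrt X / Real.log X ^ 5 ≤ count S a b c y)

open Classical in
theorem result (a b : ℤ) (ha : 0 < a) (U : ℕ) : ∃ K X₀ : ℕ, ∀ X : ℕ, X₀ ≤ X →
    (∀ w : ℕ → ℝ, (∀ m, |w m| ≤ 1) → Negligible w K X →
      (((Icc 1 (X : ℤ)).filter (fun c : ℤ => ∃ y : ℕ, y ^ 2 ≤ X ∧
        Real.sqrt X / Real.log X ^ U < |primeSum w a b c y|)).card : ℝ) ≤ X / Real.log X ^ U) ∧
    (∀ (S : Set ℕ) (δ : ℝ), 0 ≤ δ → δ ≤ 1 → Density S δ K X →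
      (((Icc 1 (X : ℤ)).filter (fun c : ℤ => ¬ Good a b S δ U X c)).card : ℝ) ≤ X / Real.log X ^ U) := by
  obtain ⟨K, X₀, h⟩ := Pool.Agent.K7.H74.QA.fin_sets a b ha U
  refine ⟨K, X₀, fun X hX => ?_⟩
  obtain ⟨h1, h2⟩ := h X hX
  have hf : ∀ (c : ℤ) (t : ℕ), Pool.Agent.R460.SB.fv (-a) (-b) c t = f a b c t := by
    intro c t
    unfold Pool.Agent.R460.SB.fv f
    ring
  have hr : ∀ (c : ℤ) (p : ℕ), Pool.Agent.H373R2.T7.nuB (Pool.Agent.R460.SB.QS (-a) (-b) c) p = omega a b c p := by
    intro c p
    unfold omega Pool.Agent.H373R2.T7.nuB Pool.Agent.R460.SB.QS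
    have e : ∀ m : ℕ, ((p : ℤ) ∣ c - (-a * (m : ℤ) ^ 2 + -b * (m : ℤ))) ↔ (p : ℤ) ∣ f a b c m := by
      intro m
      have e1 := hf c m
      unfold Pool.Agent.R460.SB.fv at e1
      rw [e1]
    congr 1
    ext m
    simp only [mem_filter, e]
  have hs : ∀ c : ℤ, (fun z : ℕ => Pool.Agent.R460.SB.Sz (-a) (-b) c z) = product a b c := by
    intro c
    funext z
    rw [Pool.Agent.R460.SB.Sz_prod]
    unfold product Pool.Agent.H373R2.T7.pz
    refine prod_congr rfl fun p _ => ?_
    rw [hr]
  refine ⟨fun w hw hN => ?_, fun S δ hδ0 hδ1 hN => ?_⟩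
  · refine le_trans (le_of_eq ?_) (h1 w hw hN)
    unfold primeSum
    simp only [hf]
  · refine le_trans (le_of_eq ?_) (h2 S δ hδ0 hδ1 hN)
    have hc : ∀ (c : ℤ) (y : ℕ), Set.ncard {m : ℕ | m ∈ Icc 1 y ∧ m ∈ S ∧ (f a b c m).toNat.Prime} = count S a b c y := by
      intro c y
      unfold count
      rw [← Set.ncard_coe_finset]
      congr 1
      ext m
      simp
    have hg : ∀ c : ℤ, Good a b S δ U X c ↔ Pool.Agent.K7.H74.QA.GoodS a b S δ U X c := by
      intro c
      unfold Good Pool.Agent.K7.H74.QA.GoodS Pool.Agent.K7.H74.QA.NoFixed IsConstant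
      simp only [hs, hf, hc]
    simp only [hg]

end Pool.Agent.Results.MP_a1177c_nt.WellDistributedArguments
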